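import Pool.Agent.Q57.HK.Small
import Mathlib.Data.Fin.Tuple.Basic

/-!
Finiteness of the `ℚ`-factorial birational contractions and termination of all mixed sequences of
flips and divisorial contractions, for divisors with a finitely generated multigraded section ring.
-/

set_option autoImplicit false
set_option linter.overlappingInstances false
set_option linter.unusedSectionVars false
set_option maxHeartbeats 1000000

open FF MvPolynomial Pool.Agent.W603.LV Pool.Agent.W602.GT Pool.Agent.W602.Cov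
open Pool.Agent.TH756.PR Pool.Agent.TH122.AB Pool.Agent.TH756.PN
open Pool.Agent.Q57.FT Pool.Agent.Q57.CX Pool.Agent.Q57.HK

namespace Pool.Agent.Run7.h277.MM

variable {p q N : ℕ} {K : Type} [Field K] [Algebra ℂ K]

/-- a model with the coefficients `δ'` on which the divisors `E j`, `j ∈ J`, are contracted -/
def Ctr (N : ℕ) (δ : Fin p → Place ℂ K → ℚ) (E : Fin q → Fin p → ℤ) (J : Finset (Fin q))
    (δ' : Fin p → Place ℂ K → ℚ) : Prop :=
  (∀ (μ : Fin p → ℤ) (f : K), ZSec N δ' μ f ↔ ∃ m : ℕ, ZSec N δ (μ + m • ∑ j ∈ J, E j) f) ∧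
    ∃ (lam : Fin p → ℚ) (ε : ℚ), 0 < ε ∧
      ∀ μ : Fin p → ℚ, (∀ i, |μ i - lam i| ≤ ε) → SemiA N δ' μ

variable {N0 : ℕ} {g : Fin N0 → Fin p → ℤ} {f : Fin N0 → K} {δ : Fin p → Place ℂ K → ℚ}

/-- the generators of the section ring of the model -/
theorem gens_ctr (hgen : (∀ b, f b ≠ 0 ∧ ZSec N δ (g b) (f b)) ∧
      ∀ (μ : Fin p → ℤ) (η : K), η ≠ 0 → ZSec N δ μ η → ∀ P : Place ℂ K, Mnl g f P μ η)
    {E : Fin q → Fin p → ℤ} {J : Finset (Fin q)} {δ' : Fin p → Place ℂ K → ℚ}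
    (h : Ctr N δ E J δ') :
    (∀ b, (Fin.snoc f 1 : Fin (N0 + 1) → K) b ≠ 0 ∧
      ZSec N δ' ((Fin.snoc g (- ∑ j ∈ J, E j) : Fin (N0 + 1) → Fin p → ℤ) b)
        ((Fin.snoc f 1 : Fin (N0 + 1) → K) b)) ∧
      ∀ (μ : Fin p → ℤ) (η : K), η ≠ 0 → ZSec N δ' μ η → ∀ P : Place ℂ K,
        Mnl (Fin.snoc g (- ∑ j ∈ J, E j) : Fin (N0 + 1) → Fin p → ℤ)
          (Fin.snoc f 1 : Fin (N0 + 1) → K) P μ η := by
  classical
  refine ⟨fun b => ?_, fun μ η hη hsec P => ?_⟩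
  · refine Fin.lastCases ?_ (fun b => ?_) b
    · simp only [Fin.snoc_last]
      refine ⟨one_ne_zero, (h.1 _ _).2 ⟨1, ?_⟩⟩
      rw [one_smul, neg_add_cancel]
      exact zsec_one
    · simp only [Fin.snoc_castSucc]
      refine ⟨(hgen.1 b).1, (h.1 _ _).2 ⟨0, ?_⟩⟩
      rw [zero_smul, add_zero]
      exact (hgen.1 b).2
  · obtain ⟨m, hm⟩ := (h.1 _ _).1 hsec
    obtain ⟨e, he1, he2⟩ := hgen.2 _ η hη hm P
    refine ⟨Fin.snoc e m, fun i => ?_, ?_⟩
    · rw [Fin.sum_univ_castSucc]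
      simp only [Fin.snoc_castSucc, Fin.snoc_last]
      rw [he1 i]
      rw [Pi.add_apply, Pi.smul_apply, Pi.neg_apply, nsmul_eq_mul]
      ring
    · rw [Fin.sum_univ_castSucc]
      simp only [Fin.snoc_castSucc, Fin.snoc_last]
      rw [P.ord_one, mul_zero, add_zero]
      exact he2

/-- **There are finitely many models.** -/
theorem fin_ctr {δ : Fin p → Place ℂ K → ℚ} (h : (coxRing N δ).FG) (E : Fin q → Fin p → ℤ) :
    ∃ B : ℕ, ∀ (J : Fin (B + 1) → Finset (Fin q)) (δs : Fin (B + 1) → Fin p → Place ℂ K → ℚ),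
      (∀ j, Ctr N δ E (J j) (δs j)) →
      ∃ j j' : Fin (B + 1), j < j' ∧ J j = J j' ∧ ∀ P : Place ℂ K, Divisorial N P →
        ∀ i, δs j i P = δs j' i P := by
  classical
  obtain ⟨N0, g, f, hgen⟩ := gens_of_fg h
  refine ⟨Fintype.card (Finset (Fin q) × Finset (Finset (Fin (N0 + 1)))), fun J δs hδs => ?_⟩
  choose lam ε hε hlam using fun j => (hδs j).2
  obtain ⟨j, j', hne, heq⟩ := Fintype.exists_ne_map_eq_of_card_lt
    (fun j => (J j, sig (Fin.snoc g (- ∑ i ∈ J j, E i) : Fin (N0 + 1) → Fin p → ℤ) (lam j))) (by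
      rw [Fintype.card_fin]
      exact Nat.lt_succ_self _)
  have key : ∀ j j', J j = J j' →
      sig (Fin.snoc g (- ∑ i ∈ J j, E i) : Fin (N0 + 1) → Fin p → ℤ) (lam j) =
        sig (Fin.snoc g (- ∑ i ∈ J j', E i) : Fin (N0 + 1) → Fin p → ℤ) (lam j') →
      ∀ P : Place ℂ K, Divisorial N P → ∀ i, δs j i P = δs j' i P := by
    intro j j' hJ hs P hP i
    have h1 := gens_ctr hgen (hδs j)
    refine eq_of_sig (δ := δs j) (lam' := lam j) (lam'' := lam j') h1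
      ⟨fun μ f => Iff.rfl, ε j, hε j, hlam j⟩ ⟨fun μ f => ?_, ε j', hε j', hlam j'⟩ ?_ hP i
    · rw [(hδs j).1, (hδs j').1, hJ]
    · rw [hs, hJ]
  obtain ⟨hJ, hs⟩ := Prod.mk.inj heq
  rcases lt_or_gt_of_ne hne with hlt | hlt
  · exact ⟨j, j', hlt, hJ, key j j' hJ hs⟩
  · exact ⟨j', j, hlt, hJ.symm, key j' j hJ.symm hs.symm⟩

/-- **Termination of mixed sequences**, with a uniform bound. -/
theorem term_ctr {δ : Fin p → Place ℂ K → ℚ} (h : (coxRing N δ).FG) (E : Fin q → Fin p → ℤ) :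
    ∃ B : ℕ, (∀ (J : Fin (B + 1) → Finset (Fin q)) (δs : Fin (B + 1) → Fin p → Place ℂ K → ℚ),
      (∀ j, Ctr N δ E (J j) (δs j)) →
      ∃ j j' : Fin (B + 1), j < j' ∧ J j = J j' ∧ ∀ P : Place ℂ K, Divisorial N P →
        ∀ i, δs j i P = δs j' i P) ∧
      ∀ (w : Fin p → ℝ) (L : ℕ) (J : ℕ → Finset (Fin q)) (δs : ℕ → Fin p → Place ℂ K → ℚ),
        (∀ j ≤ L, Ctr N δ E (J j) (δs j)) →
        (∀ j < L, (∀ P : Place ℂ K, Divisorial N P →
            ∑ i, w i * (δs (j + 1) i P : ℝ) ≤ ∑ i, w i * (δs j i P : ℝ)) ∧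
          ∃ P : Place ℂ K, Divisorial N P ∧
            ∑ i, w i * (δs (j + 1) i P : ℝ) < ∑ i, w i * (δs j i P : ℝ)) → L < B := by
  classical
  obtain ⟨B, hB⟩ := fin_ctr h E
  refine ⟨B, hB, fun w L J δs hsm hst => ?_⟩
  by_contra hcon
  push Not at hcon
  obtain ⟨j, j', hlt, -, heq⟩ := hB (fun j => J j) (fun j => δs j) fun j => hsm j (by
    have := j.2
    omega)
  have hlt' : (j : ℕ) < j' := hlt
  have hj' : (j' : ℕ) ≤ L := by
    have := j'.2
    omega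
  have hmono : ∀ a b : ℕ, a ≤ b → b ≤ L → ∀ P : Place ℂ K, Divisorial N P →
      ∑ i, w i * (δs b i P : ℝ) ≤ ∑ i, w i * (δs a i P : ℝ) := by
    intro a b hab
    induction b, hab using Nat.le_induction with
    | base => intro _ P _; exact le_rfl
    | succ b hab ih =>
      intro hb P hP
      exact ((hst b (by omega)).1 P hP).trans (ih (by omega) P hP)
  obtain ⟨P, hP, hs⟩ := (hst j (by omega)).2
  have h1 := hmono (j + 1) j' (by omega) hj' P hP
  have h2 : ∑ i, w i * (δs j i P : ℝ) = ∑ i, w i * (δs j' i P : ℝ) :=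
    Finset.sum_congr rfl fun i _ => by rw [heq P hP i]
  linarith

end Pool.Agent.Run7.h277.MM
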