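import Pool.Agent.Run7.h277.MM.Scal

/-!
The minimal model program with scaling for divisors with a finitely generated multigraded section
ring: the main theorem.
-/

set_option autoImplicit false
set_option linter.overlappingInstances false
set_option linter.unusedSectionVars false
set_option maxHeartbeats 1000000

open FF MvPolynomial Pool.Agent.W603.LV Pool.Agent.W602.GT Pool.Agent.W602.Cov
open Pool.Agent.TH756.PR Pool.Agent.TH122.AB Pool.Agent.TH756.PN
open Pool.Agent.Q57.FT Pool.Agent.Q57.CX Pool.Agent.Q57.HK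

namespace Pool.Agent.Run7.h277.MM

variable {p N : ℕ} {K : Type} [Field K] [Algebra ℂ K]

theorem exists_mult (μ : Fin p → ℚ) : ∃ m : ℕ, 1 ≤ m ∧ ∃ ν : Fin p → ℤ, ∀ i, (m : ℚ) * μ i = ν i := by
  classical
  refine ⟨∏ i, (μ i).den, Nat.one_le_iff_ne_zero.2 (Finset.prod_ne_zero_iff.2 fun i _ =>
    (μ i).den_ne_zero), fun i => (∏ j ∈ Finset.univ.erase i, (μ j).den : ℕ) * (μ i).num,
    fun i => ?_⟩
  have h2 : (∏ i, (μ i).den : ℕ) = (μ i).den * ∏ j ∈ Finset.univ.erase i, (μ j).den :=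
    (Finset.mul_prod_erase _ _ (Finset.mem_univ i)).symm
  have h3 : ((μ i).den : ℚ) * μ i = (μ i).num := by
    rw [mul_comm]
    exact Rat.mul_den_eq_num (μ i)
  rw [h2]
  push_cast
  rw [← h3]
  ring

/-- the conclusion -/
def Scaling (N : ℕ) (δ : Fin p → Place ℂ K → ℚ) (κ lam : Fin p → ℚ) (s : ℕ) (τ : ℕ → ℚ)
    (α k : ℕ → Place ℂ K → ℚ) : Prop :=
  0 ≤ τ s ∧ (∀ j < s, τ (j + 1) < τ j) ∧
    (∀ P : Place ℂ K, Divisorial N P →
      k 0 P = ∑ i, κ i * δ i P ∧ α 0 P = ∑ i, lam i * δ i P) ∧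
    (∀ t, τ 1 ≤ t → SemiOn N δ κ lam t (α 0) (k 0)) ∧
    (∀ j < s, ∀ t, τ (j + 1) ≤ t → t ≤ τ j → SemiOn N δ κ lam t (α j) (k j)) ∧
    (∀ j, j + 1 < s → (∀ P : Place ℂ K, Divisorial N P → k (j + 1) P ≤ k j P) ∧
      ∃ P : Place ℂ K, Divisorial N P ∧ k (j + 1) P < k j P) ∧
    (τ s = 0 ∨ 0 < τ s ∧ ∀ t : ℚ, t < τ s → ∀ (m : ℕ) (ν : Fin p → ℤ), 1 ≤ m →
      (∀ i, (m : ℚ) * (κ i + t * lam i) = ν i) → ∀ η, ZSec N δ ν η → η = 0)

/-- **The minimal model program with scaling.** -/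
theorem mmp_scaling {δ : Fin p → Place ℂ K → ℚ} (h : (coxRing N δ).FG) :
    ∃ B : ℕ, ∀ κ lam : Fin p → ℚ,
      (∃ ε : ℚ, 0 < ε ∧ ∀ μ : Fin p → ℚ, (∀ i, |μ i - lam i| ≤ ε) → SemiA N δ μ) →
      ∃ (s : ℕ) (τ : ℕ → ℚ) (α k : ℕ → Place ℂ K → ℚ), 1 ≤ s ∧ s ≤ B ∧
        Scaling N δ κ lam s τ α k := by
  classical
  obtain ⟨N0, g, f, hgen⟩ := gens_of_fg h
  refine ⟨2 ^ N0 * 2 + 1, fun κ lam hlam => ?_⟩
  by_cases hP0 : ∃ P : Place ℂ K, Divisorial N P
  swap
  · -- there are no places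
    have hno : ∀ P : Place ℂ K, ¬ Divisorial N P := fun P hP => hP0 ⟨P, hP⟩
    have hsemi : ∀ t, SemiOn N δ κ lam t (fun _ => 0) (fun _ => 0) := by
      intro t
      refine ⟨fun m ν _ η => ⟨fun _ P hP => absurd hP (hno P), fun _ P hP => absurd hP (hno P)⟩, ?_⟩
      obtain ⟨m, hm, ν, hν⟩ := exists_mult fun i => κ i + t * lam i
      exact ⟨m, hm, ν, hν, fun P hP => absurd hP (hno P)⟩
    refine ⟨1, fun j => if j = 0 then 1 else 0, fun _ _ => 0, fun _ _ => 0, le_rfl, by omega,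
      by simp, fun j hj => ?_, fun P hP => absurd hP (hno P), fun t _ => hsemi t,
      fun j _ t _ _ => hsemi t, fun j hj => absurd hj (by omega), Or.inl (by simp)⟩
    obtain rfl : j = 0 := by omega
    simp
  obtain ⟨T, hT1, hT2⟩ := exists_all_ends (gq g) κ lam
  rw [Fintype.card_fin] at hT1
  obtain ⟨τ0, hτ0, htop⟩ := exists_top hgen (κ := κ) hP0 hlam
  obtain ⟨⟨e0, he0⟩, -⟩ := htop τ0 le_rfl
  obtain ⟨lo, hlo0, hlo, hlomin⟩ := exists_end (gq g) Finset.univ κ lam 1 0
    (fun τ h _ => by simpa using h) hτ0 ⟨e0, he0, fun b hb => absurd (Finset.mem_univ b) hb⟩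
  have hlomin' : ∀ t, 0 ≤ t → (∃ e, Rq (gq g) e fun i => κ i + t * lam i) → lo ≤ t := by
    rintro t ht ⟨e, he⟩
    have := hlomin t ht ⟨e, he, fun b hb => absurd (Finset.mem_univ b) hb⟩
    linarith
  have hfe : ∀ t, lo ≤ t → ∃ e, Rq (gq g) e fun i => κ i + t * lam i := by
    intro t ht
    rcases le_total t τ0 with h1 | h1
    · obtain ⟨e, he, -⟩ := fe_conv hlo
        ⟨e0, he0, fun b hb => absurd (Finset.mem_univ b) hb⟩ ht h1
      exact ⟨e, he⟩
    · exact (htop t h1).1
  obtain ⟨top, htopd⟩ : ∃ top : ℚ, top = max τ0 lo + 1 := ⟨_, rfl⟩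
  have htop1 : τ0 < top := by
    rw [htopd]
    linarith [le_max_left τ0 lo]
  have htop2 : lo < top := by
    rw [htopd]
    linarith [le_max_right τ0 lo]
  have hQ : ∀ a b : ℚ, lo ≤ a → a < b → (∀ t ∈ T, t ≤ a ∨ b ≤ t) →
      ∀ P : Place ℂ K, Divisorial N P → ∃ α k : ℚ, ∀ t, a ≤ t → t ≤ b →
        phi g f κ lam P t = - (k + t * α) := by
    intro a b ha hab hTab P hP
    obtain ⟨ea, hea⟩ := hfe a ha
    obtain ⟨eb, heb⟩ := hfe b (ha.trans hab.le)
    exact phi_aff hgen hP hab (fun S t h1 h2 h3 => hT2 S a b t (hlo0.trans ha) h1 h2 hTab h3)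
      hea heb
  obtain ⟨s, τ, hs, ⟨h1, h2, h3, h4, h5⟩, hmin⟩ := exists_min_chain
    (Q := fun a b => ∀ P : Place ℂ K, Divisorial N P → ∃ α k : ℚ, ∀ t, a ≤ t → t ≤ b →
        phi g f κ lam P t = - (k + t * α)) hQ htop2
  have hex : ∀ (j : ℕ) (P : Place ℂ K), ∃ α k : ℚ, j < s → Divisorial N P →
      ∀ t, τ (j + 1) ≤ t → t ≤ τ j → phi g f κ lam P t = - (k + t * α) := by
    intro j P
    by_cases hj : j < s
    · by_cases hP : Divisorial N P
      · obtain ⟨α, k, hαk⟩ := h5 j hj P hP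
        exact ⟨α, k, fun _ _ => hαk⟩
      · exact ⟨0, 0, fun _ h => absurd h hP⟩
    · exact ⟨0, 0, fun h => absurd h hj⟩
  choose α k hαk using hex
  have hge : ∀ d j, j + d = s → lo ≤ τ j := by
    intro d
    induction d with
    | zero =>
      intro j hj
      rw [add_zero] at hj
      rw [hj, h3]
    | succ d ih =>
      intro j hj
      exact (ih (j + 1) (by omega)).trans (h4 j (by omega)).le
  have hge' : ∀ j, j ≤ s → lo ≤ τ j := fun j hj => hge (s - j) j (by omega)
  -- the first model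
  have hfirst : ∀ P : Place ℂ K, Divisorial N P →
      k 0 P = ∑ i, κ i * δ i P ∧ α 0 P = ∑ i, lam i * δ i P := by
    intro P hP
    have ht1 : τ 1 < top := by
      rw [← h2]
      exact h4 0 (by omega)
    obtain ⟨t2, ht2⟩ : ∃ t2 : ℚ, t2 = max τ0 (τ 1) := ⟨_, rfl⟩
    have ht2' : t2 < top := by
      rw [ht2]
      exact max_lt htop1 ht1
    have e1 := hαk 0 P (by omega) hP top (by rw [zero_add]; exact ht1.le) (by rw [h2])
    have e2 := hαk 0 P (by omega) hP t2 (by rw [zero_add, ht2]; exact le_max_right _ _)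
      (by rw [h2]; exact ht2'.le)
    have e3 := (htop top htop1.le).2 P hP
    have e4 := (htop t2 (by rw [ht2]; exact le_max_left _ _)).2 P hP
    rw [e1] at e3
    rw [e2] at e4
    have e5 : (top - t2) * (α 0 P - ∑ i, lam i * δ i P) = 0 := by linarith
    have e6 : α 0 P - ∑ i, lam i * δ i P = 0 := by
      rcases mul_eq_zero.1 e5 with e | e
      · linarith
      · exact e
    have e7 : α 0 P = ∑ i, lam i * δ i P := by linarith
    refine ⟨?_, e7⟩
    rw [e7] at e4
    linarith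
  refine ⟨s, τ, α, k, h1, by omega, by rw [h3]; exact hlo0, h4, hfirst, fun t ht => ?_,
    fun j hj t ht1 ht2 => ?_, fun j hj => ?_, ?_⟩
  · obtain ⟨e, he⟩ := hfe t ((hge' 1 h1).trans ht)
    refine semiOn_of_phi hgen he fun P hP => ?_
    rcases le_total t top with h6 | h6
    · exact hαk 0 P (by omega) hP t ht (by rw [h2]; exact h6)
    · rw [(htop t (htop1.le.trans h6)).2 P hP, (hfirst P hP).1, (hfirst P hP).2]
  · obtain ⟨e, he⟩ := hfe t ((hge' (j + 1) (by omega)).trans ht1)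
    exact semiOn_of_phi hgen he fun P hP => hαk j P hj hP t ht1 ht2
  · have hxy := h4 (j + 1) (by omega)
    have hyz := h4 j (by omega)
    have hx := hge' (j + 2) (by omega)
    have hy0 : 0 < τ (j + 1) := lt_of_le_of_lt (hlo0.trans hx) hxy
    have hval : ∀ P : Place ℂ K, Divisorial N P →
        k j P + τ (j + 1) * α j P = k (j + 1) P + τ (j + 1) * α (j + 1) P := by
      intro P hP
      have e1 := hαk j P (by omega) hP (τ (j + 1)) le_rfl hyz.le
      have e2 := hαk (j + 1) P (by omega) hP (τ (j + 1)) hxy.le le_rfl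
      rw [e1] at e2
      linarith
    have hmono : ∀ P : Place ℂ K, Divisorial N P → α j P ≤ α (j + 1) P := by
      intro P hP
      obtain ⟨ex, hex⟩ := hfe _ hx
      obtain ⟨ez, hez⟩ := hfe _ (hge' j (by omega))
      obtain ⟨s', t', hs', ht', hst, hy⟩ := bary hxy.le hyz.le
      have e0 := phi_conv hgen hP hex hez hs' ht' hst hy
      have e1 := hαk (j + 1) P (by omega) hP (τ (j + 2)) le_rfl hxy.le
      have e2 := hαk j P (by omega) hP (τ j) hyz.le le_rfl
      have e3 := hαk j P (by omega) hP (τ (j + 1)) le_rfl hyz.le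
      rw [e1, e2, e3] at e0
      have e4 := hval P hP
      -- `s' (y - x) = t' (z - y) > 0`
      have e5 : s' * (τ (j + 1) - τ (j + 2)) = t' * (τ j - τ (j + 1)) := by
        have e6 : s' * (τ (j + 1) - τ (j + 2)) - t' * (τ j - τ (j + 1)) =
            (s' + t') * τ (j + 1) - (s' * τ (j + 2) + t' * τ j) := by ring
        rw [hst, one_mul, ← hy, sub_self] at e6
        linarith
      have e6 : 0 < s' * (τ (j + 1) - τ (j + 2)) := by
        rcases eq_or_lt_of_le hs' with h6 | h6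
        · exfalso
          have h7 : t' = 1 := by linarith
          rw [← h6, h7] at hy
          linarith
        · exact mul_pos h6 (by linarith)
      have e7 : k j P + τ (j + 1) * α j P = s' * (k (j + 1) P + τ (j + 1) * α (j + 1) P) +
          t' * (k j P + τ (j + 1) * α j P) := by
        rw [← e4, ← add_mul, hst, one_mul]
      have e8 : s' * (τ (j + 1) - τ (j + 2)) * α j P ≤
          s' * (τ (j + 1) - τ (j + 2)) * α (j + 1) P := by
        have e9 : s' * (τ (j + 1) - τ (j + 2)) * α j P = t' * (τ j - τ (j + 1)) * α j P := by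
          rw [e5]
        rw [e9]
        nlinarith [e0, e7]
      exact le_of_mul_le_mul_left e8 e6
    refine ⟨fun P hP => ?_, ?_⟩
    · have e1 := hval P hP
      have e2 := mul_le_mul_of_nonneg_left (hmono P hP) hy0.le
      linarith
    · by_contra hcon
      push Not at hcon
      apply hmin j (by omega)
      intro P hP
      have e1 := hval P hP
      have e2 := hmono P hP
      have e3 := hcon P hP
      have e4 : α j P = α (j + 1) P := by
        refine le_antisymm e2 ?_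
        have e5 : τ (j + 1) * α (j + 1) P ≤ τ (j + 1) * α j P := by linarith
        exact le_of_mul_le_mul_left e5 hy0
      have e5 : k j P = k (j + 1) P := by
        rw [e4] at e1
        linarith
      refine ⟨α j P, k j P, fun t ht1 ht2 => ?_⟩
      rcases le_total t (τ (j + 1)) with h6 | h6
      · rw [e4, e5]
        exact hαk (j + 1) P (by omega) hP t ht1 h6
      · exact hαk j P (by omega) hP t h6 ht2
  · rw [h3]
    rcases eq_or_lt_of_le hlo0 with h6 | h6
    · exact Or.inl h6.symm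
    refine Or.inr ⟨h6, fun t ht m ν hm hν η hη => ?_⟩
    by_contra h0
    obtain ⟨P, hP⟩ := hP0
    obtain ⟨e, he1, he2⟩ := hgen.2 ν η h0 hη P
    have hm0 : (0 : ℚ) < m := by exact_mod_cast hm
    have hr : Rq (gq g) (fun b => (e b : ℚ) / m) (fun i => κ i + t * lam i) := by
      refine ⟨fun b => by positivity, fun i => ?_⟩
      have e1 : ∑ b, (e b : ℚ) / m * gq g b i = (∑ b, (e b : ℚ) * gq g b i) / m := by
        rw [Finset.sum_div]
        exact Finset.sum_congr rfl fun b _ => by ring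
      have e2 : ∑ b, (e b : ℚ) * gq g b i = ν i := by
        rw [← he1 i]
        push_cast
        rfl
      rw [e1, e2, ← hν i]
      field_simp
    rcases le_or_gt 0 t with h7 | h7
    · exact absurd (hlomin' t h7 ⟨_, hr⟩) (not_le.2 ht)
    · obtain ⟨e', he', -⟩ := fe_conv (y := 0)
        ⟨_, hr, fun b hb => absurd (Finset.mem_univ b) hb⟩ hlo h7.le hlo0
      exact absurd (hlomin' 0 le_rfl ⟨e', he'⟩) (not_le.2 h6)

end Pool.Agent.Run7.h277.MM
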