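import Mathlib

/-!
Rational linear programs: basic optimal solutions, the ends of parametric programs, and chains of
intervals.
-/

set_option autoImplicit false

namespace Pool.Agent.Run7.h277.MM

open Finset

section lp

variable {ι : Type} [Fintype ι] {p : ℕ}

/-- `e` represents `μ` -/
def Rq (G : ι → Fin p → ℚ) (e : ι → ℚ) (μ : Fin p → ℚ) : Prop :=
  (∀ b, 0 ≤ e b) ∧ ∀ i, ∑ b, e b * G b i = μ i

/-- the columns in the support of `e` are independent -/
def Ind (G : ι → Fin p → ℚ) (e : ι → ℚ) : Prop :=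
  ∀ s : ι → ℚ, (∀ b, e b = 0 → s b = 0) → (∀ i, ∑ b, s b * G b i = 0) → s = 0

theorem sum_lin (x y : ℚ) (s t : ι → ℚ) (o : ι → ℚ) :
    ∑ b, (x * s b + y * t b) * o b = x * ∑ b, s b * o b + y * ∑ b, t b * o b := by
  rw [Finset.mul_sum, Finset.mul_sum, ← Finset.sum_add_distrib]
  exact Finset.sum_congr rfl fun b _ => by ring

theorem sum_neg' (s : ι → ℚ) (o : ι → ℚ) : ∑ b, (- s b) * o b = - ∑ b, s b * o b := by
  rw [← Finset.sum_neg_distrib]
  exact Finset.sum_congr rfl fun b _ => by ring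

theorem exists_basic_le {G : ι → Fin p → ℚ} {o : ι → ℚ}
    (hbd : ∀ s : ι → ℚ, (∀ b, 0 ≤ s b) → (∀ i, ∑ b, s b * G b i = 0) → 0 ≤ ∑ b, s b * o b)
    {μ : Fin p → ℚ} (n : ℕ) : ∀ e, Rq G e μ → (univ.filter fun b => e b ≠ 0).card = n →
    ∃ e', Rq G e' μ ∧ ∑ b, e' b * o b ≤ ∑ b, e b * o b ∧ Ind G e' := by
  classical
  induction n using Nat.strong_induction_on with
  | _ n ih =>
    intro e he hn
    by_cases hI : Ind G e
    · exact ⟨e, he, le_rfl, hI⟩
    unfold Ind at hI
    push Not at hI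
    obtain ⟨s0, hs0, hs1, hs2⟩ := hI
    -- a direction of nonincreasing cost with a negative coordinate
    obtain ⟨s, hse, hsG, hso, b0, hb0⟩ : ∃ s : ι → ℚ, (∀ b, e b = 0 → s b = 0) ∧
        (∀ i, ∑ b, s b * G b i = 0) ∧ ∑ b, s b * o b ≤ 0 ∧ ∃ b, s b < 0 := by
      rcases lt_trichotomy (∑ b, s0 b * o b) 0 with h | h | h
      · refine ⟨s0, hs0, hs1, h.le, ?_⟩
        by_contra hcon
        push Not at hcon
        exact absurd (hbd s0 hcon hs1) (not_le.2 h)
      · by_cases hex : ∃ b, s0 b < 0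
        · exact ⟨s0, hs0, hs1, h.le, hex⟩
        · push Not at hex
          refine ⟨fun b => - s0 b, fun b hb => by
            beta_reduce
            rw [hs0 b hb, neg_zero], fun i => ?_, ?_, ?_⟩
          · rw [sum_neg', hs1, neg_zero]
          · rw [sum_neg', h, neg_zero]
          · by_contra hcon
            push Not at hcon
            exact hs2 (funext fun b => le_antisymm (by
              have := hcon b
              simp only [Pi.zero_apply]
              linarith) (hex b))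
      · refine ⟨fun b => - s0 b, fun b hb => by
            beta_reduce
            rw [hs0 b hb, neg_zero], fun i => ?_, ?_, ?_⟩
        · rw [sum_neg', hs1, neg_zero]
        · rw [sum_neg']; linarith
        · by_contra hcon
          push Not at hcon
          have h1 := hbd (fun b => - s0 b) hcon (fun i => by rw [sum_neg', hs1, neg_zero])
          rw [sum_neg'] at h1
          linarith
    -- the step
    obtain ⟨b1, hb1, hmin⟩ := Finset.exists_min_image (univ.filter fun b => s b < 0)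
      (fun b => e b / - s b) ⟨b0, by simp [hb0]⟩
    have hb1' : s b1 < 0 := (Finset.mem_filter.1 hb1).2
    obtain ⟨t, ht⟩ : ∃ t : ℚ, t = e b1 / - s b1 := ⟨_, rfl⟩
    have ht0 : 0 ≤ t := by
      rw [ht]
      exact div_nonneg (he.1 b1) (by linarith)
    have hge : ∀ b, 0 ≤ 1 * e b + t * s b := by
      intro b
      rcases lt_or_ge (s b) 0 with h | h
      · have h1 := hmin b (by simp [h])
        beta_reduce at h1
        rw [← ht] at h1
        have h2 : t * (- s b) ≤ e b := by
          rwa [le_div_iff₀ (by linarith)] at h1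
        linarith
      · have h1 := mul_nonneg ht0 h
        have h2 := he.1 b
        linarith
    have hz : 1 * e b1 + t * s b1 = 0 := by
      rw [ht, div_neg, neg_mul, div_mul_cancel₀ _ hb1'.ne]
      ring
    have hsub : (univ.filter fun b => 1 * e b + t * s b ≠ 0) ⊂ (univ.filter fun b => e b ≠ 0) := by
      rw [Finset.ssubset_iff_of_subset]
      · refine ⟨b1, ?_, ?_⟩
        · simp only [mem_filter, mem_univ, true_and]
          intro h0
          rw [hse b1 h0] at hb1'
          exact lt_irrefl _ hb1'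
        · simp only [mem_filter, mem_univ, true_and, not_not]
          exact hz
      · intro b hb
        simp only [mem_filter, mem_univ, true_and] at hb ⊢
        intro h0
        apply hb
        rw [hse b h0, h0]
        ring
    obtain ⟨e', he', hle, hind⟩ := ih _ (by rw [← hn]; exact Finset.card_lt_card hsub)
      (fun b => 1 * e b + t * s b) ⟨hge, fun i => by rw [sum_lin, he.2, hsG]; ring⟩ rfl
    refine ⟨e', he', hle.trans ?_, hind⟩
    rw [sum_lin]
    nlinarith

theorem finite_basic (G : ι → Fin p → ℚ) (μ : Fin p → ℚ) :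
    {e : ι → ℚ | Rq G e μ ∧ Ind G e}.Finite := by
  classical
  refine Set.Finite.of_injOn (t := Set.univ) (f := fun e : ι → ℚ => univ.filter fun b => e b ≠ 0)
    (fun _ _ => Set.mem_univ _) ?_ Set.finite_univ
  rintro e ⟨he, hi⟩ e' ⟨he', -⟩ h
  have h1 : ∀ b, e b = 0 → e' b = 0 := by
    intro b hb
    by_contra hcon
    have h2 : b ∈ univ.filter fun b => e' b ≠ 0 := by simp [hcon]
    have h3 : b ∈ univ.filter fun b => e b ≠ 0 := by
      have : (univ.filter fun b => e b ≠ 0) = univ.filter fun b => e' b ≠ 0 := h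
      rw [this]
      exact h2
    simp [hb] at h3
  have h4 := hi (fun b => 1 * e b + (-1) * e' b) (fun b hb => by rw [hb, h1 b hb]; ring)
    (fun i => by rw [sum_lin, he.2, he'.2]; ring)
  funext b
  have h5 := congrFun h4 b
  simp only [Pi.zero_apply] at h5
  linarith

/-- **The optimum.** -/
theorem exists_opt {G : ι → Fin p → ℚ} {o : ι → ℚ} {μ : Fin p → ℚ} (c : ℚ)
    (hc : ∀ e, Rq G e μ → c ≤ ∑ b, e b * o b) {e0 : ι → ℚ} (he0 : Rq G e0 μ) :
    ∃ e, Rq G e μ ∧ Ind G e ∧ ∀ e', Rq G e' μ → ∑ b, e b * o b ≤ ∑ b, e' b * o b := by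
  classical
  have hbd : ∀ s : ι → ℚ, (∀ b, 0 ≤ s b) → (∀ i, ∑ b, s b * G b i = 0) →
      0 ≤ ∑ b, s b * o b := by
    intro s hs hsG
    by_contra hcon
    push Not at hcon
    obtain ⟨t, ht⟩ : ∃ t : ℚ, t = (∑ b, e0 b * o b - c + 1) / (- ∑ b, s b * o b) := ⟨_, rfl⟩
    have h0 := hc e0 he0
    have hpos : 0 < - ∑ b, s b * o b := by linarith
    have ht0 : 0 ≤ t := by
      rw [ht]
      exact div_nonneg (by linarith) hpos.le
    have h1 := hc (fun b => 1 * e0 b + t * s b) ⟨fun b => by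
      have := mul_nonneg ht0 (hs b)
      have := he0.1 b
      linarith, fun i => by rw [sum_lin, he0.2, hsG]; ring⟩
    rw [sum_lin] at h1
    have h2 : t * (- ∑ b, s b * o b) = ∑ b, e0 b * o b - c + 1 := by
      rw [ht, div_mul_cancel₀ _ hpos.ne']
    linarith
  obtain ⟨e1, h1, -, h1'⟩ := exists_basic_le hbd _ e0 he0 rfl
  obtain ⟨e, ⟨he, hi⟩, hmin⟩ := Set.exists_min_image _ (fun e : ι → ℚ => ∑ b, e b * o b)
    (finite_basic G μ) ⟨e1, h1, h1'⟩
  refine ⟨e, he, hi, fun e' he' => ?_⟩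
  obtain ⟨e2, h2, hle, hi2⟩ := exists_basic_le hbd _ e' he' rfl
  exact (hmin e2 ⟨h2, hi2⟩).trans hle

/-- the program is feasible with the columns in `S` -/
def Fe (G : ι → Fin p → ℚ) (S : Finset ι) (μ : Fin p → ℚ) : Prop :=
  ∃ e, Rq G e μ ∧ ∀ b, b ∉ S → e b = 0

theorem rq_conv {G : ι → Fin p → ℚ} {κ lam : Fin p → ℚ} {x y z s t : ℚ} {e e' : ι → ℚ}
    (he : Rq G e fun i => κ i + x * lam i) (he' : Rq G e' fun i => κ i + z * lam i)
    (hs : 0 ≤ s) (ht : 0 ≤ t) (hst : s + t = 1) (hy : y = s * x + t * z) :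
    Rq G (fun b => s * e b + t * e' b) fun i => κ i + y * lam i := by
  refine ⟨fun b => add_nonneg (mul_nonneg hs (he.1 b)) (mul_nonneg ht (he'.1 b)), fun i => ?_⟩
  rw [sum_lin, he.2, he'.2, hy]
  have h1 : κ i = (s + t) * κ i := by rw [hst, one_mul]
  calc s * (κ i + x * lam i) + t * (κ i + z * lam i)
      = (s + t) * κ i + (s * x + t * z) * lam i := by ring
    _ = _ := by rw [← h1]

/-- the barycentric coordinates -/
theorem bary {x y z : ℚ} (hxy : x ≤ y) (hyz : y ≤ z) :
    ∃ s t : ℚ, 0 ≤ s ∧ 0 ≤ t ∧ s + t = 1 ∧ y = s * x + t * z := by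
  rcases eq_or_lt_of_le (hxy.trans hyz) with h | h
  · refine ⟨1, 0, zero_le_one, le_rfl, by ring, ?_⟩
    linarith
  · have h0 : z - x ≠ 0 := by linarith
    have h1 : 0 < z - x := by linarith
    refine ⟨(z - y) / (z - x), (y - x) / (z - x), div_nonneg (by linarith) h1.le,
      div_nonneg (by linarith) h1.le, ?_, ?_⟩
    · rw [← add_div, div_eq_one_iff_eq h0]
      ring
    · field_simp
      ring

theorem fe_conv {G : ι → Fin p → ℚ} {S : Finset ι} {κ lam : Fin p → ℚ} {x y z : ℚ}
    (hx : Fe G S fun i => κ i + x * lam i) (hz : Fe G S fun i => κ i + z * lam i)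
    (hxy : x ≤ y) (hyz : y ≤ z) : Fe G S fun i => κ i + y * lam i := by
  obtain ⟨e, he, he0⟩ := hx
  obtain ⟨e', he', he0'⟩ := hz
  obtain ⟨s, t, hs, ht, hst, hy⟩ := bary hxy hyz
  exact ⟨_, rq_conv he he' hs ht hst hy, fun b hb => by rw [he0 b hb, he0' b hb]; ring⟩

theorem exists_end (G : ι → Fin p → ℚ) (S : Finset ι) (κ lam : Fin p → ℚ) (σ c : ℚ)
    (hc : ∀ τ : ℚ, 0 ≤ τ → (Fe G S fun i => κ i + τ * lam i) → c ≤ σ * τ)
    {τ0 : ℚ} (h0 : 0 ≤ τ0) (hτ0 : Fe G S fun i => κ i + τ0 * lam i) :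
    ∃ τ : ℚ, 0 ≤ τ ∧ (Fe G S fun i => κ i + τ * lam i) ∧
      ∀ τ' : ℚ, 0 ≤ τ' → (Fe G S fun i => κ i + τ' * lam i) → σ * τ ≤ σ * τ' := by
  classical
  obtain ⟨G', hG'⟩ : ∃ G' : Option ι → Fin p → ℚ,
    G' = fun b i => b.elim (- lam i) fun b => if b ∈ S then G b i else 0 := ⟨_, rfl⟩
  obtain ⟨o', ho'⟩ : ∃ o' : Option ι → ℚ, o' = fun b => b.elim σ fun _ => 0 := ⟨_, rfl⟩
  have hto : ∀ τ : ℚ, 0 ≤ τ → (Fe G S fun i => κ i + τ * lam i) →
      ∃ e', Rq G' e' κ ∧ e' none = τ := by
    rintro τ hτ ⟨e, he, he0⟩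
    refine ⟨fun b => b.elim τ e, ⟨fun b => ?_, fun i => ?_⟩, rfl⟩
    · cases b with
      | none => exact hτ
      | some b => exact he.1 b
    · rw [Fintype.sum_option, hG']
      simp only [Option.elim]
      have h1 : ∀ b, e b * (if b ∈ S then G b i else 0) = e b * G b i := by
        intro b
        split_ifs with hb
        · rfl
        · rw [he0 b hb]
          ring
      rw [Finset.sum_congr rfl fun b _ => h1 b, he.2]
      ring
  have hfrom : ∀ e', Rq G' e' κ → 0 ≤ e' none ∧ Fe G S fun i => κ i + e' none * lam i := by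
    intro e' he'
    refine ⟨he'.1 none, fun b => if b ∈ S then e' (some b) else 0, ⟨fun b => ?_, fun i => ?_⟩,
      fun b hb => if_neg hb⟩
    · beta_reduce
      split_ifs
      · exact he'.1 _
      · exact le_rfl
    · have h1 := he'.2 i
      rw [Fintype.sum_option, hG'] at h1
      simp only [Option.elim] at h1
      have h2 : ∀ b, (if b ∈ S then e' (some b) else 0) * G b i =
          e' (some b) * (if b ∈ S then G b i else 0) := by
        intro b
        split_ifs <;> ring
      rw [Finset.sum_congr rfl fun b _ => h2 b]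
      linarith
  have hcost : ∀ e' : Option ι → ℚ, ∑ b, e' b * o' b = σ * e' none := by
    intro e'
    rw [Fintype.sum_option, ho']
    simp only [Option.elim, mul_zero, Finset.sum_const_zero, add_zero]
    ring
  obtain ⟨e1, he1, -⟩ := hto τ0 h0 hτ0
  obtain ⟨e, he, -, hopt⟩ := exists_opt (G := G') (o := o') (μ := κ) c (fun e he => by
    rw [hcost]
    exact hc _ (hfrom e he).1 (hfrom e he).2) he1
  refine ⟨e none, (hfrom e he).1, (hfrom e he).2, fun τ' h0' h' => ?_⟩
  obtain ⟨e2, he2, h2⟩ := hto τ' h0' h'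
  have h3 := hopt e2 he2
  rw [hcost, hcost, h2] at h3
  exact h3

/-- **The ends of the interval of the feasible parameters.** -/
theorem exists_ends (G : ι → Fin p → ℚ) (S : Finset ι) (κ lam : Fin p → ℚ) :
    ∃ T : Finset ℚ, T.card ≤ 2 ∧ ∀ a b τ : ℚ, 0 ≤ a → a < τ → τ < b →
      (∀ t ∈ T, t ≤ a ∨ b ≤ t) → (Fe G S fun i => κ i + τ * lam i) →
      (Fe G S fun i => κ i + a * lam i) ∧ Fe G S fun i => κ i + b * lam i := by
  classical
  by_cases hne : ∃ τ0 : ℚ, 0 ≤ τ0 ∧ Fe G S fun i => κ i + τ0 * lam i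
  swap
  · refine ⟨∅, by simp, fun a b τ ha hτ _ _ h => ?_⟩
    exact absurd ⟨τ, by linarith, h⟩ hne
  obtain ⟨τ0, h0, hτ0⟩ := hne
  obtain ⟨t0, ht0, hF0, hmin⟩ := exists_end G S κ lam 1 0 (fun τ h _ => by simpa using h) h0 hτ0
  by_cases hb : ∃ M : ℚ, ∀ τ : ℚ, 0 ≤ τ → (Fe G S fun i => κ i + τ * lam i) → τ ≤ M
  · obtain ⟨M, hM⟩ := hb
    obtain ⟨t1, ht1, hF1, hmax⟩ := exists_end G S κ lam (-1) (-M) (fun τ h h' => by
      have := hM τ h h'
      linarith) h0 hτ0
    refine ⟨{t0, t1}, Finset.card_le_two, fun a b τ ha haτ hτb hT h => ?_⟩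
    have h2 : t0 ≤ τ := by
      have := hmin τ (by linarith) h
      linarith
    have h3 : τ ≤ t1 := by
      have := hmax τ (by linarith) h
      linarith
    have h4 : t0 ≤ a := (hT t0 (by simp)).resolve_right (by rw [not_le]; linarith)
    have h5 : b ≤ t1 := (hT t1 (by simp)).resolve_left (by rw [not_le]; linarith)
    exact ⟨fe_conv hF0 h h4 haτ.le, fe_conv h hF1 hτb.le h5⟩
  · push Not at hb
    refine ⟨{t0}, by simp, fun a b τ ha haτ hτb hT h => ?_⟩
    have h2 : t0 ≤ τ := by
      have := hmin τ (by linarith) h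
      linarith
    have h4 : t0 ≤ a := (hT t0 (by simp)).resolve_right (by rw [not_le]; linarith)
    obtain ⟨τ', h0', hF', hbτ'⟩ := hb b
    exact ⟨fe_conv hF0 h h4 haτ.le, fe_conv h hF' hτb.le hbτ'.le⟩

/-- **The ends for all sets of columns.** -/
theorem exists_all_ends (G : ι → Fin p → ℚ) (κ lam : Fin p → ℚ) :
    ∃ T : Finset ℚ, T.card ≤ 2 ^ Fintype.card ι * 2 ∧ ∀ (S : Finset ι) (a b τ : ℚ), 0 ≤ a →
      a < τ → τ < b → (∀ t ∈ T, t ≤ a ∨ b ≤ t) → (Fe G S fun i => κ i + τ * lam i) →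
      (Fe G S fun i => κ i + a * lam i) ∧ Fe G S fun i => κ i + b * lam i := by
  classical
  choose T hT1 hT2 using fun S => exists_ends G S κ lam
  refine ⟨Finset.univ.biUnion T, ?_, fun S a b τ ha h1 h2 h3 h4 => hT2 S a b τ ha h1 h2
    (fun t ht => h3 t (Finset.mem_biUnion.2 ⟨S, Finset.mem_univ S, ht⟩)) h4⟩
  refine (Finset.card_biUnion_le_card_mul _ _ 2 fun S _ => hT1 S).trans ?_
  rw [Finset.card_univ, Fintype.card_finset]

end lp

section chains

/-- a chain of intervals from `top` to `lo` -/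
def Chain (Q : ℚ → ℚ → Prop) (lo top : ℚ) (s : ℕ) (τ : ℕ → ℚ) : Prop :=
  1 ≤ s ∧ τ 0 = top ∧ τ s = lo ∧ (∀ j < s, τ (j + 1) < τ j) ∧ ∀ j < s, Q (τ (j + 1)) (τ j)

theorem exists_chain {Q : ℚ → ℚ → Prop} {T : Finset ℚ} {lo : ℚ}
    (hQ : ∀ a b : ℚ, lo ≤ a → a < b → (∀ t ∈ T, t ≤ a ∨ b ≤ t) → Q a b) (n : ℕ) :
    ∀ top : ℚ, lo < top → (T.filter fun t => lo < t ∧ t < top).card = n →
      ∃ (s : ℕ) (τ : ℕ → ℚ), s ≤ n + 1 ∧ Chain Q lo top s τ := by
  classical
  induction n using Nat.strong_induction_on with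
  | _ n ih =>
    intro top htop hn
    by_cases hne : (T.filter fun t => lo < t ∧ t < top).Nonempty
    · obtain ⟨t, ht, hmax⟩ := Finset.exists_max_image _ (fun t : ℚ => t) hne
      obtain ⟨htT, hlt, htt⟩ := Finset.mem_filter.1 ht
      have hss : (T.filter fun u => lo < u ∧ u < t) ⊂ T.filter fun u => lo < u ∧ u < top := by
        rw [Finset.ssubset_iff_of_subset]
        · refine ⟨t, ht, ?_⟩
          simp
        · intro u hu
          obtain ⟨hu1, hu2, hu3⟩ := Finset.mem_filter.1 hu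
          exact Finset.mem_filter.2 ⟨hu1, hu2, hu3.trans htt⟩
      obtain ⟨s, τ, hs, hc1, hc2, hc3, hc4, hc5⟩ := ih _ (by
        rw [← hn]; exact Finset.card_lt_card hss) t hlt rfl
      have hcard := Finset.card_lt_card hss
      refine ⟨s + 1, fun j => if j = 0 then top else τ (j - 1), by omega, by omega, by simp, by
        simp [hc3], ?_, ?_⟩
      · intro j hj
        rcases Nat.eq_zero_or_pos j with rfl | hj0
        · simp [hc2, htt]
        · obtain ⟨j, rfl⟩ : ∃ j', j = j' + 1 := ⟨j - 1, by omega⟩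
          simp only [Nat.add_eq_zero_iff, one_ne_zero, and_false, if_false, Nat.add_sub_cancel]
          exact hc4 j (by omega)
      · intro j hj
        rcases Nat.eq_zero_or_pos j with rfl | hj0
        · simp only [zero_add, one_ne_zero, if_false, if_true, Nat.sub_self, hc2]
          refine hQ t top hlt.le htt fun u hu => ?_
          by_contra hcon
          push Not at hcon
          have h1 := hmax u (Finset.mem_filter.2 ⟨hu, by linarith [hcon.1], hcon.2⟩)
          exact absurd h1 (not_le.2 hcon.1)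
        · obtain ⟨j, rfl⟩ : ∃ j', j = j' + 1 := ⟨j - 1, by omega⟩
          simp only [Nat.add_eq_zero_iff, one_ne_zero, and_false, if_false, Nat.add_sub_cancel]
          exact hc5 j (by omega)
    · refine ⟨1, fun j => if j = 0 then top else lo, by omega, le_rfl, by simp, by simp, ?_, ?_⟩
      · intro j hj
        obtain rfl : j = 0 := by omega
        simpa using htop
      · intro j hj
        obtain rfl : j = 0 := by omega
        simp only [zero_add, one_ne_zero, if_false, if_true]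
        refine hQ lo top le_rfl htop fun u hu => ?_
        by_contra hcon
        push Not at hcon
        exact hne ⟨u, Finset.mem_filter.2 ⟨hu, hcon.1, hcon.2⟩⟩

/-- **A chain of minimal length**: no two neighbouring intervals can be joined. -/
theorem exists_min_chain {Q : ℚ → ℚ → Prop} {T : Finset ℚ} {lo top : ℚ}
    (hQ : ∀ a b : ℚ, lo ≤ a → a < b → (∀ t ∈ T, t ≤ a ∨ b ≤ t) → Q a b) (htop : lo < top) :
    ∃ (s : ℕ) (τ : ℕ → ℚ), s ≤ T.card + 1 ∧ Chain Q lo top s τ ∧
      ∀ j, j + 2 ≤ s → ¬ Q (τ (j + 2)) (τ j) := by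
  classical
  obtain ⟨s0, τ0, hs0, hc0⟩ := exists_chain hQ _ top htop rfl
  have hex : ∃ s, ∃ τ, Chain Q lo top s τ := ⟨s0, τ0, hc0⟩
  obtain ⟨τ, h1, h2, h3, h4, h5⟩ := Nat.find_spec hex
  refine ⟨Nat.find hex, τ, ?_, ⟨h1, h2, h3, h4, h5⟩, fun j hj hcon => ?_⟩
  · have h6 : Nat.find hex ≤ s0 := Nat.find_min' hex ⟨τ0, hc0⟩
    have h7 := Finset.card_filter_le T fun t => lo < t ∧ t < top
    omega
  · refine Nat.find_min hex (m := Nat.find hex - 1) (by omega)
      ⟨fun i => if i ≤ j then τ i else τ (i + 1), by omega, by simp [h2], ?_, ?_, ?_⟩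
    · beta_reduce
      rw [if_neg (by omega)]
      have : Nat.find hex - 1 + 1 = Nat.find hex := by omega
      rw [this, h3]
    · intro i hi
      beta_reduce
      rcases lt_trichotomy i j with h | h | h
      · rw [if_pos (by omega), if_pos (by omega)]
        exact h4 i (by omega)
      · rw [if_neg (by omega), if_pos (by omega), h]
        exact (h4 (j + 1) (by omega)).trans (h4 j (by omega))
      · rw [if_neg (by omega), if_neg (by omega)]
        exact h4 (i + 1) (by omega)
    · intro i hi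
      beta_reduce
      rcases lt_trichotomy i j with h | h | h
      · rw [if_pos (by omega), if_pos (by omega)]
        exact h5 i (by omega)
      · rw [if_neg (by omega), if_pos (by omega), h]
        exact hcon
      · rw [if_neg (by omega), if_neg (by omega)]
        exact h5 (i + 1) (by omega)

end chains

end Pool.Agent.Run7.h277.MM
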