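import Pool.Agent.Q57.HK.Dir
import Pool.Agent.Run7.h277.MM.Lp

/-!
The minimal model program with scaling for divisors with a finitely generated multigraded section
ring.
-/

set_option autoImplicit false
set_option linter.overlappingInstances false
set_option linter.unusedSectionVars false
set_option maxHeartbeats 1000000

open FF MvPolynomial Pool.Agent.W603.LV Pool.Agent.W602.GT Pool.Agent.W602.Cov
open Pool.Agent.TH756.PR Pool.Agent.TH122.AB Pool.Agent.TH756.PN
open Pool.Agent.Q57.FT Pool.Agent.Q57.CX Pool.Agent.Q57.HK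

namespace Pool.Agent.Run7.h277.MM

variable {p N : ℕ} {K : Type} [Field K] [Algebra ℂ K]

/-- the class `κ + τ lam` is semiample on the model with the coefficients `k` and `α` -/
def SemiOn (N : ℕ) (δ : Fin p → Place ℂ K → ℚ) (κ lam : Fin p → ℚ) (τ : ℚ)
    (α k : Place ℂ K → ℚ) : Prop :=
  (∀ (m : ℕ) (ν : Fin p → ℤ), (∀ i, (m : ℚ) * (κ i + τ * lam i) = ν i) → ∀ f : K,
      (ZSec N δ ν f ↔ ∀ P : Place ℂ K, Divisorial N P →
        f = 0 ∨ - (m * (k P + τ * α P)) ≤ P.ord f)) ∧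
    ∃ m : ℕ, 1 ≤ m ∧ ∃ ν : Fin p → ℤ, (∀ i, (m : ℚ) * (κ i + τ * lam i) = ν i) ∧
      ∀ P : Place ℂ K, Divisorial N P → ∃ f : K, f ≠ 0 ∧ ZSec N δ ν f ∧
        (P.ord f : ℚ) ≤ - (m * (k P + τ * α P))

section gens

variable {N0 : ℕ} {g : Fin N0 → Fin p → ℤ} {f : Fin N0 → K} {δ : Fin p → Place ℂ K → ℚ}

/-- the degrees of the generators -/
def gq (g : Fin N0 → Fin p → ℤ) : Fin N0 → Fin p → ℚ := fun b i => (g b i : ℚ)

/-- the costs -/
noncomputable def ct (f : Fin N0 → K) (P : Place ℂ K) : Fin N0 → ℚ := fun b => (P.ord (f b) : ℚ)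

theorem rp_iff {e : Fin N0 → ℚ} {μ : Fin p → ℚ} : Rp g e μ ↔ Rq (gq g) e μ := Iff.rfl

theorem opt_unique {o : Fin N0 → ℚ} {μ : Fin p → ℚ} {v v' : ℚ} (h : Opt g o μ v)
    (h' : Opt g o μ v') : v = v' := by
  obtain ⟨e, he, hv⟩ := h.2
  obtain ⟨e', he', hv'⟩ := h'.2
  exact le_antisymm (by rw [← hv']; exact h.1 e' he') (by rw [← hv]; exact h'.1 e he)

/-- a common denominator -/
theorem common_den (F : Set (Fin N0 → ℚ)) (hF : F.Finite) (h0 : ∀ e ∈ F, ∀ b, 0 ≤ e b) :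
    ∃ M : ℕ, 1 ≤ M ∧ ∀ e ∈ F, ∃ e' : Fin N0 → ℕ, ∀ b, (M : ℚ) * e b = e' b := by
  classical
  have key : ∀ s : Finset (Fin N0 → ℚ), (∀ e ∈ s, ∀ b, 0 ≤ e b) →
      ∃ M : ℕ, 1 ≤ M ∧ ∀ e ∈ s, ∃ e' : Fin N0 → ℕ, ∀ b, (M : ℚ) * e b = e' b := by
    intro s
    induction s using Finset.induction_on with
    | empty => exact fun _ => ⟨1, le_rfl, fun e he => by simp at he⟩
    | insert a s ha ih =>
      intro hs
      obtain ⟨M, hM, h1⟩ := ih fun e he => hs e (Finset.mem_insert_of_mem he)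
      obtain ⟨M', hM', a', ha'⟩ := exists_den a (hs a (Finset.mem_insert_self a s))
      refine ⟨M * M', Nat.one_le_iff_ne_zero.2 (by positivity), fun e he => ?_⟩
      rcases Finset.mem_insert.1 he with rfl | he
      · refine ⟨fun b => M * a' b, fun b => ?_⟩
        push_cast
        rw [mul_assoc, ha' b]
      · obtain ⟨e', he'⟩ := h1 e he
        refine ⟨fun b => M' * e' b, fun b => ?_⟩
        push_cast
        rw [← he' b]
        ring
  obtain ⟨M, hM, h1⟩ := key hF.toFinset fun e he => h0 e (hF.mem_toFinset.1 he)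
  exact ⟨M, hM, fun e he => h1 e (hF.mem_toFinset.2 he)⟩

/-- the asymptotic order of the class `κ + τ lam` at `P` -/
noncomputable def phi (g : Fin N0 → Fin p → ℤ) (f : Fin N0 → K) (κ lam : Fin p → ℚ)
    (P : Place ℂ K) (τ : ℚ) : ℚ := by
  classical
  exact if h : ∃ v, Opt g (ct f P) (fun i => κ i + τ * lam i) v then h.choose else 0

variable (hgen : (∀ b, f b ≠ 0 ∧ ZSec N δ (g b) (f b)) ∧
      ∀ (μ : Fin p → ℤ) (η : K), η ≠ 0 → ZSec N δ μ η → ∀ P : Place ℂ K, Mnl g f P μ η)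

include hgen

theorem low {P : Place ℂ K} (hP : Divisorial N P) {e : Fin N0 → ℚ} {μ : Fin p → ℚ}
    (he : Rq (gq g) e μ) : - ∑ i, μ i * δ i P ≤ ∑ b, e b * ct f P b := by
  have h1 : ∑ i, μ i * δ i P = ∑ b, e b * ∑ i, (g b i : ℚ) * δ i P := by
    simp only [Finset.mul_sum]
    rw [Finset.sum_comm]
    refine Finset.sum_congr rfl fun i _ => ?_
    rw [← he.2 i, Finset.sum_mul]
    exact Finset.sum_congr rfl fun b _ => by unfold gq; ring
  rw [h1, ← Finset.sum_neg_distrib]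
  refine Finset.sum_le_sum fun b _ => ?_
  have h2 : - ∑ i, (g b i : ℚ) * δ i P ≤ P.ord (f b) :=
    ((hgen.1 b).2 P hP).resolve_left (hgen.1 b).1
  have h3 := mul_le_mul_of_nonneg_left h2 (he.1 b)
  unfold ct
  linarith

theorem opt_of_feas {P : Place ℂ K} (hP : Divisorial N P) {μ : Fin p → ℚ} {e0 : Fin N0 → ℚ}
    (he0 : Rq (gq g) e0 μ) :
    ∃ e, Rq (gq g) e μ ∧ Ind (gq g) e ∧ Opt g (ct f P) μ (∑ b, e b * ct f P b) := by
  obtain ⟨e, he, hi, hopt⟩ := exists_opt (G := gq g) (o := ct f P) (μ := μ)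
    (- ∑ i, μ i * δ i P) (fun e he => low hgen hP he) he0
  exact ⟨e, he, hi, fun e' he' => hopt e' he', e, he, rfl⟩

theorem phi_opt {P : Place ℂ K} (hP : Divisorial N P) {κ lam : Fin p → ℚ} {τ : ℚ}
    {e0 : Fin N0 → ℚ} (he0 : Rq (gq g) e0 fun i => κ i + τ * lam i) :
    Opt g (ct f P) (fun i => κ i + τ * lam i) (phi g f κ lam P τ) := by
  classical
  obtain ⟨e, -, -, ho⟩ := opt_of_feas hgen hP he0
  have h : ∃ v, Opt g (ct f P) (fun i => κ i + τ * lam i) v := ⟨_, ho⟩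
  unfold phi
  rw [dif_pos h]
  exact h.choose_spec

/-- the asymptotic order is convex -/
theorem phi_conv {P : Place ℂ K} (hP : Divisorial N P) {κ lam : Fin p → ℚ} {x y z s t : ℚ}
    {e0 e1 : Fin N0 → ℚ} (he0 : Rq (gq g) e0 fun i => κ i + x * lam i)
    (he1 : Rq (gq g) e1 fun i => κ i + z * lam i) (hs : 0 ≤ s) (ht : 0 ≤ t) (hst : s + t = 1)
    (hy : y = s * x + t * z) :
    phi g f κ lam P y ≤ s * phi g f κ lam P x + t * phi g f κ lam P z := by
  obtain ⟨e, he, hv⟩ := (phi_opt hgen hP he0).2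
  obtain ⟨e', he', hv'⟩ := (phi_opt hgen hP he1).2
  have h1 := rq_conv (G := gq g) he he' hs ht hst hy
  have h2 := (phi_opt hgen hP h1).1 _ h1
  rw [sum_lin, hv, hv'] at h2
  exact h2

/-- **The asymptotic order is affine between the ends.** -/
theorem phi_aff {P : Place ℂ K} (hP : Divisorial N P) {κ lam : Fin p → ℚ} {a b : ℚ} (hab : a < b)
    (hends : ∀ (S : Finset (Fin N0)) (τ : ℚ), a < τ → τ < b →
      (Fe (gq g) S fun i => κ i + τ * lam i) →
      (Fe (gq g) S fun i => κ i + a * lam i) ∧ Fe (gq g) S fun i => κ i + b * lam i)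
    {e0 e1 : Fin N0 → ℚ} (he0 : Rq (gq g) e0 fun i => κ i + a * lam i)
    (he1 : Rq (gq g) e1 fun i => κ i + b * lam i) :
    ∃ α k : ℚ, ∀ τ, a ≤ τ → τ ≤ b → phi g f κ lam P τ = - (k + τ * α) := by
  classical
  obtain ⟨m, hm⟩ : ∃ m : ℚ, m = 1 / 2 * a + 1 / 2 * b := ⟨_, rfl⟩
  have hmf := rq_conv (G := gq g) he0 he1 (s := 1 / 2) (t := 1 / 2) (by norm_num) (by norm_num)
    (by norm_num) hm
  have hopt := phi_opt hgen hP hmf
  obtain ⟨e, he, hv⟩ := hopt.2
  obtain ⟨⟨x0, hx0, hx0'⟩, x1, hx1, hx1'⟩ := hends (Finset.univ.filter fun b => e b ≠ 0) m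
    (by linarith) (by linarith) ⟨e, he, fun b hb => by
      by_contra h0
      exact hb (by simp [h0])⟩
  have hsup0 : ∀ b, e b = 0 → x0 b = 0 := fun b hb => hx0' b (by simp [hb])
  have hsup1 : ∀ b, e b = 0 → x1 b = 0 := fun b hb => hx1' b (by simp [hb])
  obtain ⟨C0, hC0⟩ : ∃ C0, C0 = ∑ b, x0 b * ct f P b := ⟨_, rfl⟩
  obtain ⟨C1, hC1⟩ : ∃ C1, C1 = ∑ b, x1 b * ct f P b := ⟨_, rfl⟩
  have hba : b - a ≠ 0 := by linarith
  refine ⟨-((C1 - C0) / (b - a)), - C0 + a * ((C1 - C0) / (b - a)), fun τ h1 h2 => ?_⟩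
  obtain ⟨s, t, hs, ht, hst, hτ⟩ := bary h1 h2
  have h3 := rq_conv (G := gq g) hx0 hx1 hs ht hst hτ
  have h4 : Opt g (ct f P) (fun i => κ i + τ * lam i) (s * C0 + t * C1) := by
    refine ⟨fun e' he' => ?_, _, h3, by rw [sum_lin, hC0, hC1]⟩
    have h5 := opt_of_supp hopt he hv h3 (fun b hb => by rw [hsup0 b hb, hsup1 b hb]; ring) he'
    rw [sum_lin, ← hC0, ← hC1] at h5
    exact h5
  rw [opt_unique (phi_opt hgen hP h3) h4]
  have h5 : τ - a = t * (b - a) := by
    rw [hτ]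
    have : s = 1 - t := by linarith
    rw [this]
    ring
  have h6 : s * C0 + t * C1 = C0 + t * (C1 - C0) := by
    have : s = 1 - t := by linarith
    rw [this]
    ring
  have h7 : t * (C1 - C0) = (τ - a) * ((C1 - C0) / (b - a)) := by
    rw [h5]
    field_simp
  rw [h6, h7]
  ring

/-- **The class is semiample on the model with the coefficients of the asymptotic orders.** -/
theorem semiOn_of_phi {κ lam : Fin p → ℚ} {τ : ℚ} {α k : Place ℂ K → ℚ} {e0 : Fin N0 → ℚ}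
    (he0 : Rq (gq g) e0 fun i => κ i + τ * lam i)
    (hk : ∀ P : Place ℂ K, Divisorial N P → phi g f κ lam P τ = - (k P + τ * α P)) :
    SemiOn N δ κ lam τ α k := by
  classical
  refine ⟨fun m ν hν η => ⟨fun h P hP => ?_, fun h P hP => ?_⟩, ?_⟩
  · by_cases hη : η = 0
    · exact Or.inl hη
    right
    obtain ⟨e, he1, he2⟩ := hgen.2 ν η hη h P
    have he2' : ∑ b, (e b : ℚ) * ct f P b ≤ (P.ord η : ℚ) := by
      unfold ct
      exact_mod_cast he2
    have hesum : ∀ i, ∑ b, (e b : ℚ) * gq g b i = ν i := by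
      intro i
      rw [← he1 i]
      push_cast
      rfl
    rcases Nat.eq_zero_or_pos m with rfl | hm
    · have h1 : Rq (gq g) (fun b => (e b : ℚ)) (fun i => (ν i : ℚ)) :=
        ⟨fun b => by positivity, hesum⟩
      have h2 := low hgen hP h1
      have h3 : ∑ i, (ν i : ℚ) * δ i P = 0 := by
        refine Finset.sum_eq_zero fun i _ => ?_
        rw [← hν i]
        simp
      rw [h3] at h2
      simp only [Nat.cast_zero, zero_mul, neg_zero] at h2 ⊢
      exact h2.trans he2'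
    · have hm0 : (0 : ℚ) < m := by exact_mod_cast hm
      have h1 : Rq (gq g) (fun b => (e b : ℚ) / m) (fun i => κ i + τ * lam i) := by
        refine ⟨fun b => by positivity, fun i => ?_⟩
        have h2 : ∑ b, (e b : ℚ) / m * gq g b i = (∑ b, (e b : ℚ) * gq g b i) / m := by
          rw [Finset.sum_div]
          exact Finset.sum_congr rfl fun b _ => by ring
        rw [h2, hesum, ← hν i]
        field_simp
      have h2 := (phi_opt hgen hP h1).1 _ h1
      have h3 : ∑ b, (e b : ℚ) / m * ct f P b = (∑ b, (e b : ℚ) * ct f P b) / m := by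
        rw [Finset.sum_div]
        exact Finset.sum_congr rfl fun b _ => by ring
      rw [hk P hP, h3, le_div_iff₀ hm0] at h2
      linarith
  · by_cases hη : η = 0
    · exact Or.inl hη
    right
    have h1 := (h P hP).resolve_left hη
    obtain ⟨e, he, hv⟩ := (phi_opt hgen hP he0).2
    have h2 := low hgen hP he
    have h3 : ∑ i, (ν i : ℚ) * δ i P = m * ∑ i, (κ i + τ * lam i) * δ i P := by
      rw [Finset.mul_sum]
      refine Finset.sum_congr rfl fun i _ => ?_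
      rw [← hν i]
      ring
    have h4 : - ∑ i, (κ i + τ * lam i) * δ i P ≤ - (k P + τ * α P) := by
      rw [← hk P hP, ← hv]
      exact h2
    rw [h3]
    have h5 : (0 : ℚ) ≤ m := by positivity
    have h6 := mul_le_mul_of_nonneg_left h4 h5
    linarith
  · obtain ⟨M, hM, hden⟩ := common_den _ (finite_basic (gq g) fun i => κ i + τ * lam i)
      fun e he => he.1.1
    have hint : ∀ e, Rq (gq g) e (fun i => κ i + τ * lam i) → ∀ e' : Fin N0 → ℕ,
        (∀ b, (M : ℚ) * e b = e' b) → ∀ i, (M : ℚ) * (κ i + τ * lam i) =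
          ((∑ b, e' b • g b) i : ℤ) := by
      intro e he e' he' i
      have h3 := he.2 i
      beta_reduce at h3
      rw [← h3, Finset.sum_apply, Finset.mul_sum]
      push_cast
      refine Finset.sum_congr rfl fun b _ => ?_
      rw [Pi.smul_apply, nsmul_eq_mul, ← mul_assoc, he' b]
      push_cast
      rfl
    obtain ⟨e1, he1, -, hi1⟩ := exists_basic_le (G := gq g) (o := fun _ => 0)
      (fun s _ _ => by simp) _ e0 he0 rfl
    obtain ⟨e1', he1'⟩ := hden e1 ⟨he1, hi1⟩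
    refine ⟨M, hM, ∑ b, e1' b • g b, hint e1 he1 e1' he1', fun P hP => ?_⟩
    obtain ⟨e, he, hi, ho⟩ := opt_of_feas hgen hP he0
    obtain ⟨e', he'⟩ := hden e ⟨he, hi⟩
    have hν : ∑ b, e' b • g b = ∑ b, e1' b • g b := by
      funext i
      have h1 := hint e he e' he' i
      have h2 := hint e1 he1 e1' he1' i
      rw [h1] at h2
      exact_mod_cast h2
    refine ⟨∏ b, f b ^ e' b, Finset.prod_ne_zero_iff.2 fun b _ => pow_ne_zero _ (hgen.1 b).1,
      ?_, ?_⟩
    · rw [← hν]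
      exact zsec_prod (fun b => (hgen.1 b).2) e'
    · rw [Pool.Agent.Q57.GC.ord_prod P (fun b => (hgen.1 b).1)]
      have h4 : ((∑ b, (e' b : ℤ) * P.ord (f b) : ℤ) : ℚ) = M * ∑ b, e b * ct f P b := by
        rw [Finset.mul_sum]
        push_cast
        refine Finset.sum_congr rfl fun b _ => ?_
        rw [← he' b]
        unfold ct
        ring
      rw [h4, ← opt_unique (phi_opt hgen hP he0) ho, hk P hP]
      linarith

/-- **Large multiples of the ample class**: the first model. -/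
theorem exists_top {κ lam : Fin p → ℚ} (hP0 : ∃ P : Place ℂ K, Divisorial N P)
    (hlam : ∃ ε : ℚ, 0 < ε ∧ ∀ μ : Fin p → ℚ, (∀ i, |μ i - lam i| ≤ ε) → SemiA N δ μ) :
    ∃ τ0 : ℚ, 0 ≤ τ0 ∧ ∀ τ, τ0 ≤ τ → (∃ e, Rq (gq g) e fun i => κ i + τ * lam i) ∧
      ∀ P : Place ℂ K, Divisorial N P →
        phi g f κ lam P τ = - (∑ i, κ i * δ i P + τ * ∑ i, lam i * δ i P) := by
  classical
  obtain ⟨ε, hε, hamp⟩ := hlam
  have hsum : 0 ≤ ∑ i, |κ i| := Finset.sum_nonneg fun i _ => abs_nonneg _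
  refine ⟨(∑ i, |κ i|) / ε + 1, by positivity, fun τ hτ => ?_⟩
  have hτ0 : 0 < τ := by
    have : 0 ≤ (∑ i, |κ i|) / ε := div_nonneg hsum hε.le
    linarith
  have hs : SemiA N δ fun i => lam i + κ i / τ := by
    refine hamp _ fun i => ?_
    rw [add_sub_cancel_left, abs_div, abs_of_pos hτ0, div_le_iff₀ hτ0]
    have h1 : |κ i| ≤ ∑ i, |κ i| := Finset.single_le_sum (f := fun i => |κ i|)
      (fun i _ => abs_nonneg _) (Finset.mem_univ i)
    have h2 : (∑ i, |κ i|) ≤ ε * τ := by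
      have h3 : (∑ i, |κ i|) / ε ≤ τ := by linarith
      rw [div_le_iff₀ hε] at h3
      linarith
    linarith
  obtain ⟨m, hm, ν, hν, hb⟩ := hs
  have hm0 : (0 : ℚ) < m := by exact_mod_cast hm
  have hνδ : ∀ P : Place ℂ K, ∑ i, (ν i : ℚ) * δ i P =
      m / τ * (∑ i, κ i * δ i P + τ * ∑ i, lam i * δ i P) := by
    intro P
    rw [Finset.mul_sum, ← Finset.sum_add_distrib, Finset.mul_sum]
    refine Finset.sum_congr rfl fun i _ => ?_
    rw [← hν i]
    field_simp
    ring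
  have hrep : ∀ P : Place ℂ K, Divisorial N P → ∃ e, (Rq (gq g) e fun i => κ i + τ * lam i) ∧
      ∑ b, e b * ct f P b ≤ - (∑ i, κ i * δ i P + τ * ∑ i, lam i * δ i P) := by
    intro P hP
    obtain ⟨η, hη0, hη, hle⟩ := hb P hP
    obtain ⟨e, he1, he2⟩ := hgen.2 ν η hη0 hη P
    have hesum : ∀ i, ∑ b, (e b : ℚ) * gq g b i = ν i := by
      intro i
      rw [← he1 i]
      push_cast
      rfl
    have he2' : ∑ b, (e b : ℚ) * ct f P b ≤ (P.ord η : ℚ) := by
      unfold ct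
      exact_mod_cast he2
    refine ⟨fun b => τ / m * (e b : ℚ), ⟨fun b => by positivity, fun i => ?_⟩, ?_⟩
    · have h1 : ∑ b, τ / m * (e b : ℚ) * gq g b i = τ / m * ∑ b, (e b : ℚ) * gq g b i := by
        rw [Finset.mul_sum]
        exact Finset.sum_congr rfl fun b _ => by ring
      rw [h1, hesum, ← hν i]
      field_simp
      ring
    · have h1 : ∑ b, τ / m * (e b : ℚ) * ct f P b = τ / m * ∑ b, (e b : ℚ) * ct f P b := by
        rw [Finset.mul_sum]
        exact Finset.sum_congr rfl fun b _ => by ring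
      rw [h1]
      have h2 : ∑ b, (e b : ℚ) * ct f P b ≤ - ∑ i, (ν i : ℚ) * δ i P := he2'.trans hle
      rw [hνδ] at h2
      have h3 : 0 ≤ τ / m := by positivity
      have h4 := mul_le_mul_of_nonneg_left h2 h3
      refine h4.trans (le_of_eq ?_)
      field_simp
  obtain ⟨P0, hP0⟩ := hP0
  obtain ⟨e0, he0, -⟩ := hrep P0 hP0
  refine ⟨⟨e0, he0⟩, fun P hP => ?_⟩
  obtain ⟨e, he, hle⟩ := hrep P hP
  have h1 := (phi_opt hgen hP he0).1 e he
  obtain ⟨e', he', hv⟩ := (phi_opt hgen hP he0).2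
  have h2 := low hgen hP he'
  have h3 : ∑ i, (κ i + τ * lam i) * δ i P = ∑ i, κ i * δ i P + τ * ∑ i, lam i * δ i P := by
    rw [Finset.mul_sum, ← Finset.sum_add_distrib]
    exact Finset.sum_congr rfl fun i _ => by ring
  rw [h3] at h2
  refine le_antisymm (h1.trans hle) ?_
  rw [← hv]
  exact h2

end gens

end Pool.Agent.Run7.h277.MM
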